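import Pool.Agent.helper62.RS.SpecQ
import Pool.Agent.helper98.RS.VRC

/-!
# MP_07c750: row QRC (recursion for exponential moments)
-/

open scoped MatrixGroups ContDiff Topology UpperHalfPlane ComplexConjugate
open UpperHalfPlane MeasureTheory Filter Set

namespace Pool.Agent.RS

theorem QRC_aux (u : ℍ → ℝ) (hu : Continuous u) (m : ℕ) (hm : 2 ≤ m) (b Z : ℝ)
    (hd : ∀ (g : SL(2, ℝ)) (v v' : ℝ), |v - v'| ≤ (m : ℝ)⁻¹ →
      (∫ t in (0 : ℝ)..Real.log m, u ((g * lM v * aM t) • I)) ≤
        (∫ t in (0 : ℝ)..Real.log m, u ((g * lM v' * aM t) • I)) + b)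
    (hZ : ∀ g : SL(2, ℝ), ∫ v in (0 : ℝ)..1,
      Real.exp (∫ t in (0 : ℝ)..Real.log m, u ((g * lM v * aM t) • I)) ≤ Z)
    (n : ℕ) : ∀ g : SL(2, ℝ), ∫ v in (0 : ℝ)..1,
      Real.exp (∫ t in (0 : ℝ)..(n * Real.log m), u ((g * lM v * aM t) • I)) ≤ (Real.exp b * Z) ^ n := by
  have hm0 : (0 : ℝ) < m := by exact_mod_cast (by omega : 0 < m)
  have hm1 : (1 : ℝ) ≤ m := by exact_mod_cast (by omega : 1 ≤ m)
  have hZ0 : 0 ≤ Z := by
    refine le_trans ?_ (hZ 1)
    exact intervalIntegral.integral_nonneg zero_le_one fun v _ => (Real.exp_pos _).le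
  induction n with
  | zero =>
    intro g
    simp
  | succ n ih =>
    intro g
    set τ := Real.log (m : ℝ) with hτd
    set A : ℝ → ℝ := fun v => ∫ t in (0 : ℝ)..τ, u ((g * lM v * aM t) • I) with hA
    set D : ℝ → ℝ := fun v => ∫ t in τ..(τ + n * τ), u ((g * lM v * aM t) • I) with hD
    have hAc : Continuous A := VRC_contI u hu g 0 τ
    have hDc : Continuous D := VRC_contI u hu g τ (τ + n * τ)
    have hint : ∀ v a b : ℝ, IntervalIntegrable (fun t => u ((g * lM v * aM t) • I)) volume a b := by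
      intro v a b
      exact ((VRC_cont u hu g).comp (Continuous.prodMk_right v)).intervalIntegrable a b
    have hsplit : ∀ v, ∫ t in (0 : ℝ)..(((n + 1 : ℕ) : ℝ) * τ), u ((g * lM v * aM t) • I) = A v + D v := by
      intro v
      have e : ((n + 1 : ℕ) : ℝ) * τ = τ + n * τ := by push_cast; ring
      rw [e, hA, hD]
      exact (intervalIntegral.integral_add_adjacent_intervals (hint v 0 τ) (hint v τ _)).symm
    simp only [hsplit, Real.exp_add]
    have hEA : Continuous fun v => Real.exp (A v) := Real.continuous_exp.comp hAc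
    have hfc : Continuous fun v => Real.exp (A v) * Real.exp (D v) :=
      (Real.continuous_exp.comp hAc).mul (Real.continuous_exp.comp hDc)
    -- the cut
    have hcutg : ∀ f : ℝ → ℝ, Continuous f → ∫ v in (0 : ℝ)..1, f v =
        ∑ k ∈ Finset.range m, ∫ v in ((k : ℝ) / m)..((m : ℝ)⁻¹ + (k : ℝ) / m), f v := by
      intro f hf
      have h1 := intervalIntegral.sum_integral_adjacent_intervals (n := m)
        (a := fun k : ℕ => (k : ℝ) / m) (f := f) (μ := volume)
        (fun k _ => hf.intervalIntegrable _ _)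
      have e1 : ((m : ℕ) : ℝ) / m = 1 := div_self hm0.ne'
      simp only [Nat.cast_zero, zero_div] at h1
      rw [e1] at h1
      rw [← h1]
      refine Finset.sum_congr rfl fun k _ => ?_
      congr 1
      push_cast
      field_simp
      ring
    rw [hcutg _ hfc]
    have hpiece : ∀ k ∈ Finset.range m, ∫ v in ((k : ℝ) / m)..((m : ℝ)⁻¹ + (k : ℝ) / m),
        Real.exp (A v) * Real.exp (D v) ≤
          (∫ v in ((k : ℝ) / m)..((m : ℝ)⁻¹ + (k : ℝ) / m), Real.exp (A v)) *
            (Real.exp b * (Real.exp b * Z) ^ n) := by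
      intro k hk
      have hle : (k : ℝ) / m ≤ (m : ℝ)⁻¹ + (k : ℝ) / m := by
        have := inv_pos.2 hm0
        linarith
      set J : ℝ := ∫ v in ((k : ℝ) / m)..((m : ℝ)⁻¹ + (k : ℝ) / m), Real.exp (A v) with hJ
      have hJ0 : 0 ≤ J := intervalIntegral.integral_nonneg hle fun v _ => (Real.exp_pos _).le
      have hc0 : ∀ v ∈ Icc ((k : ℝ) / m) ((m : ℝ)⁻¹ + (k : ℝ) / m),
          Real.exp (A v) ≤ Real.exp b * m * J := by
        intro v hv
        have h1 : ∫ v' in ((k : ℝ) / m)..((m : ℝ)⁻¹ + (k : ℝ) / m), Real.exp (A v) ≤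
            ∫ v' in ((k : ℝ) / m)..((m : ℝ)⁻¹ + (k : ℝ) / m), Real.exp b * Real.exp (A v') := by
          refine intervalIntegral.integral_mono_on hle (by simp)
            ((continuous_const.mul hEA).intervalIntegrable _ _) fun v' hv' => ?_
          rw [← Real.exp_add]
          refine Real.exp_le_exp.2 ?_
          have h2 := hd g v v' (by
            rw [abs_le]
            constructor <;> linarith [hv.1, hv.2, hv'.1, hv'.2])
          linarith
        rw [intervalIntegral.integral_const, intervalIntegral.integral_const_mul, smul_eq_mul,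
          add_sub_cancel_right] at h1
        have h3 := mul_le_mul_of_nonneg_left h1 hm0.le
        rw [← mul_assoc, mul_inv_cancel₀ hm0.ne', one_mul] at h3
        calc Real.exp (A v) ≤ m * (Real.exp b * J) := h3
          _ = Real.exp b * m * J := by ring
      have hc : ∀ v ∈ Icc ((k : ℝ) / m) ((m : ℝ)⁻¹ + (k : ℝ) / m),
          Real.exp (A v) * Real.exp (D v) ≤ (Real.exp b * m * J) * Real.exp (D v) := fun v hv =>
        mul_le_mul_of_nonneg_right (hc0 v hv) (Real.exp_pos _).le
      have hP0 : 0 ≤ Real.exp b * m * J := by positivity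
      calc ∫ v in ((k : ℝ) / m)..((m : ℝ)⁻¹ + (k : ℝ) / m), Real.exp (A v) * Real.exp (D v)
          ≤ ∫ v in ((k : ℝ) / m)..((m : ℝ)⁻¹ + (k : ℝ) / m),
            (Real.exp b * m * J) * Real.exp (D v) :=
            intervalIntegral.integral_mono_on hle (hfc.intervalIntegrable _ _)
              ((continuous_const.mul (Real.continuous_exp.comp hDc)).intervalIntegrable _ _) hc
        _ = (Real.exp b * m * J) *
            ∫ v in ((k : ℝ) / m)..((m : ℝ)⁻¹ + (k : ℝ) / m), Real.exp (D v) :=
            intervalIntegral.integral_const_mul _ _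
        _ ≤ (Real.exp b * m * J) * ((m : ℝ)⁻¹ * (Real.exp b * Z) ^ n) := by
            refine mul_le_mul_of_nonneg_left ?_ hP0
            rw [hD]
            simp only
            rw [VRC_piece u hu g m hm0 ((k : ℝ) / m) (n * τ)]
            exact mul_le_mul_of_nonneg_left (ih _) (inv_pos.2 hm0).le
        _ = J * (Real.exp b * (Real.exp b * Z) ^ n) := by
            field_simp
    refine (Finset.sum_le_sum hpiece).trans ?_
    rw [← Finset.sum_mul, ← hcutg _ hEA]
    calc (∫ v in (0 : ℝ)..1, Real.exp (A v)) * (Real.exp b * (Real.exp b * Z) ^ n)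
        ≤ Z * (Real.exp b * (Real.exp b * Z) ^ n) :=
          mul_le_mul_of_nonneg_right (hZ g) (by positivity)
      _ = (Real.exp b * Z) ^ (n + 1) := by
          rw [pow_succ]
          ring

theorem QRC (hGLC : GLC_stmt) : QRC_stmt := by
  have _ := hGLC
  intro h m θ B Z hh hm hθ _hB hd hZ n g
  have hc : ∀ (T : ℝ) (g : SL(2, ℝ)) (v : ℝ), ∫ t in (0 : ℝ)..T, (fun z => θ * h z) ((g * lM v * aM t) • I) =
      θ * ∫ t in (0 : ℝ)..T, h ((g * lM v * aM t) • I) := fun T g v =>
    intervalIntegral.integral_const_mul _ _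
  have key := QRC_aux (fun z => θ * h z) (continuous_const.mul hh) m hm (θ * B) Z (by
    intro g v v' hv
    rw [hc, hc]
    have h1 := (abs_le.1 (hd g v v' hv)).2
    nlinarith [mul_le_mul_of_nonneg_left h1 hθ]) (by
    intro g
    simp only [hc]
    exact hZ g) n g
  simp only [hc] at key
  exact key

end Pool.Agent.RS
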